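import Mathlib

/-!
# Two-cardinal ineffability for small families of small subsets

Author: helper70.

The proof. Let `φ` be an injection of the family `F` into `λ`. Call `x` bad if there is `y ∈ F` with
`y ∈ P_{κ_x}(x)` and `φ(y) ∉ x`; choose such a `y = y_x`. Code into a subset `g(x)` of `x` whether
`x` is bad, and the set `y_x` if it is and the set `{φ(y) : y ∈ f(x)}` if it is not. Ineffability
gives `A` with `g(x) = A ∩ x` for stationarily many `x`. If these `x` were bad, then `y_x = A' ∩ x`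
for one set `A'`, which has cardinality `< κ` (a set of cardinality `≥ κ` meets the `x` of a closed
unbounded set in at least `|x ∩ κ|` points), so that `y_x = A'` and `φ(A') ∈ x` for stationarily many
of them, a contradiction. So they are good, and `f(x)` is read off from `A ∩ x`.
-/

set_option autoImplicit false

namespace Pool.Agent.Results.MP_eaa9e6_lc.SmallFamilies

open Set Cardinal Ordinal

/-- `P_κ(L)`: the subsets of `L` of cardinality less than `κ`. -/
def Pk (κ : Cardinal.{0}) (L : Type) : Set (Set L) := {x | #x < κ}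

/-- Closed unbounded subsets of `P_κ(L)`. -/
structure Club (κ : Cardinal.{0}) (L : Type) (C : Set (Set L)) : Prop where
  sub : C ⊆ Pk κ L
  unbounded : ∀ x ∈ Pk κ L, ∃ y ∈ C, x ⊆ y
  closed : ∀ D : Set (Set L), D ⊆ C → D.Nonempty → IsChain (· ⊆ ·) D → #D < κ → ⋃₀ D ∈ C

/-- Stationary sets: they meet every closed unbounded set. -/
def Stationary (κ : Cardinal.{0}) (L : Type) (S : Set (Set L)) : Prop :=
  ∀ C, Club κ L C → (S ∩ C).Nonempty

/-- `κ` is `μ`-ineffable (Jech); `μ.ord.ToType` is the set of the ordinals below `μ`. -/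
def Ineffable (κ μ : Cardinal.{0}) : Prop :=
  ∀ f : Set μ.ord.ToType → Set μ.ord.ToType, (∀ x ∈ Pk κ μ.ord.ToType, f x ⊆ x) →
    ∃ A : Set μ.ord.ToType, Stationary κ μ.ord.ToType {x | x ∈ Pk κ μ.ord.ToType ∧ f x = A ∩ x}

/-- The ordinals below `κ`, as a subset of the set of the ordinals below `μ`. -/
def Below (κ μ : Cardinal.{0}) : Set μ.ord.ToType :=
  {a | Ordinal.typein (fun a b : μ.ord.ToType => a < b) a < κ.ord}

/-- `Small κ μ x y`: `y` is a subset of `x` with fewer elements than `κ_x = x ∩ κ`. -/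
def Small (κ μ : Cardinal.{0}) (x y : Set μ.ord.ToType) : Prop :=
  y ⊆ x ∧ #y < #(x ∩ Below κ μ : Set μ.ord.ToType)

section club

variable {κ : Cardinal.{0}} {L : Type}

theorem Club.inter (hκ' : ℵ₀ < κ) {C₁ C₂ : Set (Set L)} (h₁ : Club κ L C₁)
    (h₂ : Club κ L C₂) : Club κ L (C₁ ∩ C₂) := by
  classical
  refine ⟨fun x hx => h₁.sub hx.1, fun x hx => ?_, fun D hD hne hch hc =>
    ⟨h₁.closed D (fun y hy => (hD hy).1) hne hch hc, h₂.closed D (fun y hy => (hD hy).2) hne hch hc⟩⟩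
  have e1 : ∀ x : Set L, ∃ y, x ∈ Pk κ L → y ∈ C₁ ∧ x ⊆ y := fun x => by
    by_cases h : x ∈ Pk κ L
    · obtain ⟨y, hy, hxy⟩ := h₁.unbounded x h
      exact ⟨y, fun _ => ⟨hy, hxy⟩⟩
    · exact ⟨x, fun h' => absurd h' h⟩
  have e2 : ∀ x : Set L, ∃ y, x ∈ Pk κ L → y ∈ C₂ ∧ x ⊆ y := fun x => by
    by_cases h : x ∈ Pk κ L
    · obtain ⟨y, hy, hxy⟩ := h₂.unbounded x h
      exact ⟨y, fun _ => ⟨hy, hxy⟩⟩
    · exact ⟨x, fun h' => absurd h' h⟩
  choose c1 hc1 using e1
  choose c2 hc2 using e2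
  let a : ℕ → Set L := fun n => Nat.rec (c1 x) (fun _ y => c1 (c2 y)) n
  have ha0 : a 0 = c1 x := rfl
  have ha1 : ∀ n, a (n + 1) = c1 (c2 (a n)) := fun n => rfl
  have haC : ∀ n, a n ∈ C₁ := by
    intro n
    induction n with
    | zero => exact (hc1 x hx).1
    | succ n ih =>
      rw [ha1]
      exact (hc1 _ (h₂.sub (hc2 _ (h₁.sub ih)).1)).1
  have hbC : ∀ n, c2 (a n) ∈ C₂ := fun n => (hc2 _ (h₁.sub (haC n))).1
  have hab : ∀ n, a n ⊆ c2 (a n) := fun n => (hc2 _ (h₁.sub (haC n))).2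
  have hba : ∀ n, c2 (a n) ⊆ a (n + 1) := fun n => by
    rw [ha1]
    exact (hc1 _ (h₂.sub (hbC n))).2
  have hmono : Monotone a := monotone_nat_of_le_succ fun n => (hab n).trans (hba n)
  have hmono' : Monotone fun n => c2 (a n) :=
    monotone_nat_of_le_succ fun n => (hba n).trans (hab (n + 1))
  have hcount : ∀ g : ℕ → Set L, #(range g) < κ := fun g =>
    Cardinal.mk_range_le.trans_lt (by rw [Cardinal.mk_nat]; exact hκ')
  have hchain : ∀ g : ℕ → Set L, Monotone g → IsChain (· ⊆ ·) (range g) := by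
    rintro g hg _ ⟨m, rfl⟩ _ ⟨n, rfl⟩ _
    rcases le_total m n with h | h
    · exact Or.inl (hg h)
    · exact Or.inr (hg h)
  have k1 : ⋃₀ (range a) ∈ C₁ := h₁.closed _ (by rintro _ ⟨n, rfl⟩; exact haC n)
    (range_nonempty a) (hchain a hmono) (hcount a)
  have k2 : ⋃₀ (range fun n => c2 (a n)) ∈ C₂ := h₂.closed _ (by rintro _ ⟨n, rfl⟩; exact hbC n)
    (range_nonempty _) (hchain _ hmono') (hcount _)
  have k3 : ⋃₀ (range a) = ⋃₀ (range fun n => c2 (a n)) := by
    apply subset_antisymm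
    · rintro z ⟨_, ⟨n, rfl⟩, hz⟩
      exact ⟨_, ⟨n, rfl⟩, hab n hz⟩
    · rintro z ⟨_, ⟨n, rfl⟩, hz⟩
      exact ⟨_, ⟨n + 1, rfl⟩, hba n hz⟩
  refine ⟨⋃₀ (range a), ⟨k1, by rw [k3]; exact k2⟩, fun z hz => ⟨_, ⟨0, rfl⟩, ?_⟩⟩
  exact (hc1 x hx).2 hz

/-- The sets that contain `B` and are closed under `H` form a closed unbounded set. -/
theorem club_closed (hκ : κ.IsRegular) (hκ' : ℵ₀ < κ) {B : Set L} (hB : #B < κ) {H : L → Set L}
    (hH : ∀ a, #(H a) < κ) : Club κ L {x | x ∈ Pk κ L ∧ B ⊆ x ∧ ∀ a ∈ x, H a ⊆ x} := by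
  classical
  refine ⟨fun x hx => hx.1, fun x hx => ?_, fun D hD hne hch hc => ⟨?_, ?_, ?_⟩⟩
  · let s : ℕ → Set L := fun n => Nat.rec (motive := fun _ => Set L) (x ∪ B)
      (fun _ y => y ∪ ⋃ a : y, H a.1) n
    have hs0 : s 0 = x ∪ B := rfl
    have hs1 : ∀ n, s (n + 1) = s n ∪ ⋃ a : s n, H a.1 := fun n => rfl
    have hsc : ∀ n, #(s n) < κ := by
      intro n
      induction n with
      | zero =>
        rw [hs0]
        exact (Cardinal.mk_union_le _ _).trans_lt (Cardinal.add_lt_of_lt hκ'.le hx hB)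
      | succ n ih =>
        rw [hs1]
        refine (Cardinal.mk_union_le _ _).trans_lt (Cardinal.add_lt_of_lt hκ'.le ih ?_)
        exact (Cardinal.card_iUnion_lt_iff_forall_of_isRegular hκ ih).2 fun a => hH _
    refine ⟨⋃ n, s n, ⟨?_, ?_, ?_⟩, ?_⟩
    · exact (Cardinal.card_iUnion_lt_iff_forall_of_isRegular hκ
        (by rw [Cardinal.mk_nat]; exact hκ')).2 hsc
    · exact fun b hb => mem_iUnion.2 ⟨0, Or.inr hb⟩
    · intro a ha b hb
      obtain ⟨n, hn⟩ := mem_iUnion.1 ha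
      refine mem_iUnion.2 ⟨n + 1, ?_⟩
      rw [hs1]
      exact Or.inr (mem_iUnion.2 ⟨⟨a, hn⟩, hb⟩)
    · exact fun b hb => mem_iUnion.2 ⟨0, Or.inl hb⟩
  · show #(⋃₀ D) < κ
    rw [sUnion_eq_iUnion]
    exact (Cardinal.card_iUnion_lt_iff_forall_of_isRegular hκ hc).2 fun y => (hD y.2).1
  · obtain ⟨y, hy⟩ := hne
    exact (hD hy).2.1.trans (subset_sUnion_of_mem hy)
  · rintro a ⟨y, hy, hay⟩
    exact ((hD hy).2.2 a hay).trans (subset_sUnion_of_mem hy)

end club

/-- Let `κ` be regular and uncountable, `κ ≤ μ` and let `κ` be `μ`-ineffable. Let `F` be a family of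
at most `μ` sets of ordinals below `μ` and let `f(x)` be, for `x` in `P_κ(μ)`, a set of members `y` of `F` with
`y ⊆ x` and `|y| < |x ∩ κ|`. Then there is a subfamily `G` of `F` such that for stationarily many `x`
in `P_κ(μ)` the set `f(x)` is the set of all members `y` of `G` with `y ⊆ x` and `|y| < |x ∩ κ|`. -/
theorem result (κ μ : Cardinal.{0}) (hκ : κ.IsRegular) (hκ' : ℵ₀ < κ) (hκμ : κ ≤ μ)
    (hin : Ineffable κ μ) (F : Set (Set μ.ord.ToType)) (hFμ : #F ≤ μ) (f : Set μ.ord.ToType → Set (Set μ.ord.ToType))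
    (hf : ∀ x ∈ Pk κ μ.ord.ToType, ∀ y ∈ f x, y ∈ F ∧ Small κ μ x y) :
    ∃ G ⊆ F, Stationary κ μ.ord.ToType
      {x | x ∈ Pk κ μ.ord.ToType ∧ f x = {y | y ∈ G ∧ Small κ μ x y}} := by
  classical
  have hμ : ℵ₀ ≤ μ := hκ'.le.trans hκμ
  have hFL : #F ≤ #μ.ord.ToType := by rwa [Cardinal.mk_ord_toType]
  obtain ⟨φ⟩ := Cardinal.le_def _ _ |>.1 hFL
  have hopt : #(Option μ.ord.ToType) ≤ #μ.ord.ToType := by
    rw [Cardinal.mk_option, Cardinal.mk_ord_toType]
    exact (Cardinal.add_le_of_le hμ le_rfl (one_le_aleph0.trans hμ))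
  obtain ⟨ι⟩ := Cardinal.le_def _ _ |>.1 hopt
  have hone : ∀ a : μ.ord.ToType, #({a} : Set μ.ord.ToType) < κ := fun a => by
    rw [Cardinal.mk_singleton]
    exact one_lt_aleph0.trans hκ'
  let Bad : Set μ.ord.ToType → Prop := fun x => ∃ y : F, Small κ μ x y.1 ∧ φ y ∉ x
  let w : Set μ.ord.ToType → Set μ.ord.ToType := fun x => if h : Bad x then h.choose.1 else ∅
  have hw : ∀ x, Bad x → ∃ hy : w x ∈ F, Small κ μ x (w x) ∧ φ ⟨w x, hy⟩ ∉ x := by
    intro x h
    have h1 : w x = h.choose.1 := dif_pos h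
    rw [h1]
    exact ⟨h.choose.2, h.choose_spec⟩
  let g : Set μ.ord.ToType → Set μ.ord.ToType := fun x =>
    if Bad x then {b | b ∈ x ∧ (b = ι none ∨ ∃ a ∈ w x, b = ι (some a))}
    else {b | b ∈ x ∧ ∃ y : F, y.1 ∈ f x ∧ b = ι (some (φ y))}
  have hg : ∀ x ∈ Pk κ μ.ord.ToType, g x ⊆ x := by
    intro x _
    by_cases h : Bad x
    · have : g x = {b | b ∈ x ∧ (b = ι none ∨ ∃ a ∈ w x, b = ι (some a))} := if_pos h
      rw [this]
      exact fun b hb => hb.1
    · have : g x = {b | b ∈ x ∧ ∃ y : F, y.1 ∈ f x ∧ b = ι (some (φ y))} := if_neg h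
      rw [this]
      exact fun b hb => hb.1
  obtain ⟨A, hA⟩ := hin g hg
  have hbad : ∀ x, x ∈ Pk κ μ.ord.ToType → g x = A ∩ x → ι none ∈ x → (Bad x ↔ ι none ∈ A) := by
    intro x _ hgx hx
    constructor
    · intro h
      have h1 : ι none ∈ g x := by
        have : g x = {b | b ∈ x ∧ (b = ι none ∨ ∃ a ∈ w x, b = ι (some a))} := if_pos h
        rw [this]
        exact ⟨hx, Or.inl rfl⟩
      rw [hgx] at h1
      exact h1.1
    · intro h
      by_contra hcon
      have h1 : ι none ∈ g x := by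
        rw [hgx]
        exact ⟨h, hx⟩
      have : g x = {b | b ∈ x ∧ ∃ y : F, y.1 ∈ f x ∧ b = ι (some (φ y))} := if_neg hcon
      rw [this] at h1
      obtain ⟨-, y, -, hy⟩ := h1
      have := ι.injective hy
      simp at this
  by_cases htag : ι none ∈ A
  · exfalso
    let A' : Set μ.ord.ToType := {a | ι (some a) ∈ A}
    have hwx : ∀ x, x ∈ Pk κ μ.ord.ToType → g x = A ∩ x → ι none ∈ x →
        (∀ a ∈ x, ι (some a) ∈ x) → Bad x ∧ w x = A' ∩ x := by
      intro x hx hgx hx0 hxc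
      have h := (hbad x hx hgx hx0).2 htag
      have hgx' : g x = {b | b ∈ x ∧ (b = ι none ∨ ∃ a ∈ w x, b = ι (some a))} := if_pos h
      obtain ⟨hy, hsm, -⟩ := hw x h
      refine ⟨h, ?_⟩
      ext a
      constructor
      · intro ha
        have hax : a ∈ x := hsm.1 ha
        have h1 : ι (some a) ∈ g x := by
          rw [hgx']
          exact ⟨hxc a hax, Or.inr ⟨a, ha, rfl⟩⟩
        rw [hgx] at h1
        exact ⟨h1.1, hax⟩
      · rintro ⟨ha, hax⟩
        have h1 : ι (some a) ∈ g x := by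
          rw [hgx]
          exact ⟨ha, hxc a hax⟩
        rw [hgx'] at h1
        rcases h1.2 with h2 | ⟨b, hb, h2⟩
        · have := ι.injective h2
          simp at this
        · have := ι.injective h2
          rw [Option.some.injEq] at this
          rw [this]
          exact hb
    have hA' : #A' < κ := by
      by_contra hcon
      rw [not_lt] at hcon
      have h1 : #(Below κ μ) ≤ #A' := by
        refine le_trans ?_ hcon
        have h2 : #(Below κ μ) ≤ #κ.ord.ToType := by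
          have hlt : ∀ a : Below κ μ, Ordinal.typein (fun a b : μ.ord.ToType => a < b) a.1 <
              Ordinal.type (fun a b : κ.ord.ToType => a < b) := fun a => by
            rw [Ordinal.type_toType]
            exact a.2
          refine Cardinal.mk_le_of_injective
            (f := fun a : Below κ μ => Ordinal.enum (fun a b : κ.ord.ToType => a < b)
              ⟨Ordinal.typein (fun a b : μ.ord.ToType => a < b) a.1, hlt a⟩) ?_
          intro a b hab
          have h3 := congrArg (Ordinal.typein (fun a b : κ.ord.ToType => a < b)) hab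
          simp only [Ordinal.typein_enum] at h3
          exact Subtype.ext (Ordinal.typein_injective _ h3)
        rwa [Cardinal.mk_ord_toType] at h2
      obtain ⟨h⟩ := Cardinal.le_def _ _ |>.1 h1
      let H : μ.ord.ToType → Set μ.ord.ToType := fun a =>
        {ι (some a)} ∪ if ha : a ∈ Below κ μ then {(h ⟨a, ha⟩ : A').1} else ∅
      have hH : ∀ a, #(H a) < κ := by
        intro a
        refine (Cardinal.mk_union_le _ _).trans_lt (Cardinal.add_lt_of_lt hκ'.le (hone _) ?_)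
        by_cases ha : a ∈ Below κ μ
        · rw [dif_pos ha]
          exact hone _
        · rw [dif_neg ha, Cardinal.mk_eq_zero]
          exact aleph0_pos.trans hκ'
      obtain ⟨x, ⟨hx, hgx⟩, -, hx0, hxc⟩ := hA _ (club_closed hκ hκ' (hone (ι none)) hH)
      have hxc' : ∀ a ∈ x, ι (some a) ∈ x := fun a ha => hxc a ha (Or.inl rfl)
      obtain ⟨hb, hwx'⟩ := hwx x hx hgx (hx0 rfl) hxc'
      obtain ⟨-, hsm, -⟩ := hw x hb
      have hm : ∀ a : (x ∩ Below κ μ : Set μ.ord.ToType), (h ⟨a.1, a.2.2⟩ : A').1 ∈ w x := by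
        intro a
        rw [hwx']
        refine ⟨(h ⟨a.1, a.2.2⟩ : A').2, hxc a.1 a.2.1 (Or.inr ?_)⟩
        rw [dif_pos a.2.2]
        rfl
      have h5 : #(x ∩ Below κ μ : Set μ.ord.ToType) ≤ #(w x) :=
        Cardinal.mk_le_of_injective (f := fun a => (⟨_, hm a⟩ : w x)) fun a b hab => by
          have h6 : (h ⟨a.1, a.2.2⟩ : A').1 = (h ⟨b.1, b.2.2⟩ : A').1 :=
            congrArg (fun z : w x => z.1) hab
          have h7 := h.injective (Subtype.ext h6)
          exact Subtype.ext (congrArg (fun z : Below κ μ => z.1) h7)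
      exact absurd hsm.2 (not_lt.2 h5)
    have hstep : ∀ c : μ.ord.ToType, ∃ x, Bad x ∧ w x = A' ∧ c ∈ x := by
      intro c
      have hB : #(({ι none} ∪ {c}) ∪ A' : Set μ.ord.ToType) < κ :=
        (Cardinal.mk_union_le _ _).trans_lt (Cardinal.add_lt_of_lt hκ'.le
          ((Cardinal.mk_union_le _ _).trans_lt (Cardinal.add_lt_of_lt hκ'.le (hone _) (hone _)))
          hA')
      obtain ⟨x, ⟨hx, hgx⟩, -, hx0, hxc⟩ := hA _ (club_closed hκ hκ' hB
        (H := fun a => {ι (some a)}) fun a => hone _)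
      obtain ⟨hb, hwx'⟩ := hwx x hx hgx (hx0 (Or.inl (Or.inl rfl))) fun a ha => hxc a ha rfl
      refine ⟨x, hb, ?_, hx0 (Or.inl (Or.inr rfl))⟩
      rw [hwx']
      exact inter_eq_left.2 fun a ha => hx0 (Or.inr ha)
    obtain ⟨x, hb, hwx', -⟩ := hstep (ι none)
    obtain ⟨hy, -, -⟩ := hw x hb
    rw [hwx'] at hy
    obtain ⟨x', hb', hwx'', hc⟩ := hstep (φ ⟨A', hy⟩)
    obtain ⟨hy', -, hn⟩ := hw x' hb'
    refine hn ?_
    have : (⟨w x', hy'⟩ : F) = ⟨A', hy⟩ := Subtype.ext hwx''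
    rw [this]
    exact hc
  · refine ⟨{y | ∃ hy : y ∈ F, ι (some (φ ⟨y, hy⟩)) ∈ A}, fun y hy => hy.1, fun C hC => ?_⟩
    obtain ⟨x, ⟨hx, hgx⟩, hxC, -, hx0, hxc⟩ := hA _ (hC.inter hκ' (club_closed hκ hκ'
      (hone (ι none)) (H := fun a => {ι (some a)}) fun a => hone _))
    have hx0' : ι none ∈ x := hx0 rfl
    have hxc' : ∀ a ∈ x, ι (some a) ∈ x := fun a ha => hxc a ha rfl
    have hnb : ¬ Bad x := fun h => htag ((hbad x hx hgx hx0').1 h)
    have hgx' : g x = {b | b ∈ x ∧ ∃ y : F, y.1 ∈ f x ∧ b = ι (some (φ y))} := if_neg hnb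
    have hin' : ∀ y : F, Small κ μ x y.1 → φ y ∈ x := fun y hy => by
      by_contra hcon
      exact hnb ⟨y, hy, hcon⟩
    refine ⟨x, ⟨hx, ?_⟩, hxC⟩
    ext y
    constructor
    · intro hy
      obtain ⟨hyF, hsm⟩ := hf x hx y hy
      have h1 : ι (some (φ ⟨y, hyF⟩)) ∈ g x := by
        rw [hgx']
        exact ⟨hxc' _ (hin' ⟨y, hyF⟩ hsm), ⟨y, hyF⟩, hy, rfl⟩
      rw [hgx] at h1
      exact ⟨⟨hyF, h1.1⟩, hsm⟩
    · rintro ⟨⟨hyF, hyA⟩, hsm⟩
      have h1 : ι (some (φ ⟨y, hyF⟩)) ∈ g x := by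
        rw [hgx]
        exact ⟨hyA, hxc' _ (hin' ⟨y, hyF⟩ hsm)⟩
      rw [hgx'] at h1
      obtain ⟨-, z, hz, h2⟩ := h1
      have h3 := ι.injective h2
      rw [Option.some.injEq] at h3
      have h4 := φ.injective h3
      rw [← h4] at hz
      exact hz

end Pool.Agent.Results.MP_eaa9e6_lc.SmallFamilies
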